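import Pool.Agent.Y911.AA.Main
import Pool.Agent.X4.HC.Count

/-!
# The inequality `c < C H(abc) ^ (1 + ε)` for almost all admissible triples, of all heights

`γ(n)` is the radical of `n` and `H(n) = γ(n) / (log γ(n)) ^ ω(n)`. The admissible triples
`a + b = c` (of whatever height) are ordered by `γ(abc)`; there are `∼ κ X ^ (2/3)` of them with
`γ(abc) ≤ X`. For every `M > 1/3` and every `K > 0` all but `O(X ^ (2/3 - ν))` of them satisfy
`c < K H(abc) ^ M`, so in particular the inequality of the problem holds, with exponent `M = 1` and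
with an arbitrarily small constant, up to a power saving exceptional set. For `0 ≤ M ≤ 1/3` no
triple satisfies `c < H(abc) ^ M`.

Exceptions which violate `c < γ(abc) ^ M'` for some `M' > 1/3` are few by the almost-all theorem of
the starting library; the others have polynomial height and at least `η log X / log log X` prime
factors. For these a weighted form of the pair count is used: with `z = √(log X)`, for two of the
three members `γ(m) z ^ (-ω(m))` has product at most `(X z ^ (-ω(abc))) ^ (2/3)`.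
-/

set_option autoImplicit false

namespace Pool.Agent.Results.MP_14cf73_nt.AlmostAllTriples

open Filter Topology

/-- the radical `γ(n)`: the product of the distinct primes dividing `n` -/
def gam (n : ℕ) : ℕ := ∏ p ∈ n.primeFactors, p

/-- `H(n) = γ(n) / (log γ(n)) ^ ω(n)`, where `ω(n)` is the number of distinct primes dividing `n`
(and `0 ^ 0 = 1`) -/
noncomputable def H (n : ℕ) : ℝ := (gam n : ℝ) / Real.log (gam n : ℝ) ^ n.primeFactors.card

/-- the admissible triples `(a, b, a + b)`, written `(a, b)`: coprime `1 ≤ a ≤ b` with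
`γ(a b (a + b)) ≤ X`; there is no condition on the size of `a + b` -/
def triples (X : ℝ) : Set (ℕ × ℕ) :=
  {t | 0 < t.1 ∧ t.1 ≤ t.2 ∧ Nat.Coprime t.1 t.2 ∧ (gam (t.1 * t.2 * (t.1 + t.2)) : ℝ) ≤ X}

/-- those among them which violate `c < K H(abc) ^ M`, `c = a + b` -/
def exceptions (K M X : ℝ) : Set (ℕ × ℕ) :=
  {t | t ∈ triples X ∧ K * H (t.1 * t.2 * (t.1 + t.2)) ^ M ≤ ((t.1 + t.2 : ℕ) : ℝ)}

theorem gam_pos (n : ℕ) : 0 < gam n :=
  Finset.prod_pos fun _ hp => (Nat.prime_of_mem_primeFactors hp).pos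

theorem triples_mono {X Y : ℝ} (h : X ≤ Y) : triples X ⊆ triples Y :=
  fun _ ht => ⟨ht.1, ht.2.1, ht.2.2.1, ht.2.2.2.trans h⟩

/-- the number of all triples is at most `C X ^ (2/3)` -/
theorem card_triples (hfin : ∀ X : ℝ, (triples X).Finite) {κ : ℝ}
    (h : Tendsto (fun X : ℝ => ((triples X).ncard : ℝ) / X ^ ((2 : ℝ) / 3)) atTop (𝓝 κ)) :
    ∃ C : ℝ, 0 < C ∧ ∀ X : ℝ, 1 ≤ X → ((triples X).ncard : ℝ) ≤ C * X ^ ((2 : ℝ) / 3) := by
  have h1 := h.eventually (gt_mem_nhds (show κ < κ + 1 by linarith))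
  obtain ⟨X₀, hX₀⟩ := eventually_atTop.1 h1
  refine ⟨max (κ + 1) ((triples (max X₀ 1)).ncard + 1), lt_max_of_lt_right (by positivity),
    fun X hX => ?_⟩
  have hX0 : 0 < X := by linarith
  have hXp : 0 < X ^ ((2 : ℝ) / 3) := by positivity
  rcases le_or_gt X₀ X with h2 | h2
  · have h3 := hX₀ X h2
    rw [div_lt_iff₀ hXp] at h3
    refine h3.le.trans ?_
    exact mul_le_mul_of_nonneg_right (le_max_left _ _) hXp.le
  · have h3 : ((triples X).ncard : ℝ) ≤ ((triples (max X₀ 1)).ncard : ℝ) := by
      exact_mod_cast Set.ncard_le_ncard (triples_mono (h2.le.trans (le_max_left _ _))) (hfin _)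
    have h4 : (1 : ℝ) ≤ X ^ ((2 : ℝ) / 3) := Real.one_le_rpow hX (by norm_num)
    have h5 : 0 ≤ max (κ + 1) (((triples (max X₀ 1)).ncard : ℝ) + 1) :=
      le_max_of_le_right (by positivity)
    calc ((triples X).ncard : ℝ) ≤ max (κ + 1) ((triples (max X₀ 1)).ncard + 1) * 1 := by
          rw [mul_one]
          refine h3.trans (le_trans ?_ (le_max_right _ _))
          linarith
      _ ≤ _ := mul_le_mul_of_nonneg_left h4 h5

/-- **The H-inequality holds for almost all admissible triples, exactly for the exponents above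
`1/3`.** (1) The number of all admissible triples with `γ(abc) ≤ X`, of whatever height, is finite
and asymptotic to `κ X ^ (2/3)`, where `κ > 0`. (2) For every `K > 0` and `M > 1/3`, for example
`M = 1`, at most `C X ^ (2/3 - ν)` of them violate `c < K H(abc) ^ M`. (3) For `0 ≤ M ≤ 1/3` all of
them violate `c < H(abc) ^ M`. -/
theorem result :
    (∀ X : ℝ, (triples X).Finite) ∧
    (∃ κ : ℝ, 0 < κ ∧
      Tendsto (fun X : ℝ => ((triples X).ncard : ℝ) / X ^ ((2 : ℝ) / 3)) atTop (𝓝 κ)) ∧
    (∀ K M : ℝ, 0 < K → 1 / 3 < M → ∃ ν C : ℝ, 0 < ν ∧ 0 < C ∧ ∀ X : ℝ, 1 ≤ X →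
      ((exceptions K M X).ncard : ℝ) ≤ C * X ^ (2 / 3 - ν)) ∧
    (∀ M : ℝ, 0 ≤ M → M ≤ 1 / 3 → ∀ X : ℝ, exceptions 1 M X = triples X) := by
  have eT : ∀ X : ℝ, triples X = Pool.Agent.Results.MP_1ea25c_nt.AlmostAllTriples.triples X :=
    fun X => rfl
  have hfin : ∀ X : ℝ, (triples X).Finite := Pool.Agent.Y911.AA.triples_finite'
  obtain ⟨κ, hκ, h1, h2⟩ := Pool.Agent.Y911.AA.main
  have h1' : Tendsto (fun X : ℝ => ((triples X).ncard : ℝ) / X ^ ((2 : ℝ) / 3)) atTop (𝓝 κ) := h1
  refine ⟨hfin, ⟨κ, hκ, h1'⟩, fun K M hK hM => ?_, fun M hM0 hM X => ?_⟩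
  · obtain ⟨C₁, hC₁, hc1⟩ := card_triples hfin h1'
    set M' : ℝ := (1 / 3 + M) / 2 with hM'
    have hM'1 : 1 / 3 < M' := by rw [hM']; linarith
    have hM'2 : M' < M := by rw [hM']; linarith
    have hM0 : 0 < M := by linarith
    obtain ⟨ν₂, C₂, hν₂, hC₂, hc2⟩ := h2 M' hM'1
    set η : ℝ := (M - M') / (4 * M) with hη
    have hη0 : 0 < η := div_pos (by linarith) (by linarith)
    obtain ⟨ν₃, C₃, hν₃, hC₃, hc3⟩ := Pool.Agent.X4.HC.many (A := M') (η := η) (by linarith) hη0
    -- the threshold
    set L : ℝ := max (Real.log 9) (4 * |Real.log K| / (M - M')) with hL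
    set X₀ : ℝ := Real.exp L with hX₀
    set ν : ℝ := min (min ν₂ ν₃) (1 / 3) with hν
    have hν0 : 0 < ν := lt_min (lt_min hν₂ hν₃) (by norm_num)
    refine ⟨ν, C₁ + C₂ + C₃ + (triples X₀).ncard, hν0, by positivity, fun X hX => ?_⟩
    have hX0 : 0 < X := by linarith
    have hXν : 1 ≤ X ^ (2 / 3 - ν) := by
      apply Real.one_le_rpow hX
      have : ν ≤ 1 / 3 := min_le_right _ _
      linarith
    have hexfin : (exceptions K M X).Finite := (hfin X).subset fun t ht => ht.1
    rcases lt_or_ge X X₀ with hXX | hXX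
    · have h3 : ((exceptions K M X).ncard : ℝ) ≤ (triples X₀).ncard := by
        exact_mod_cast Set.ncard_le_ncard (show exceptions K M X ⊆ triples X₀ from
          fun t ht => triples_mono hXX.le ht.1) (hfin _)
      calc ((exceptions K M X).ncard : ℝ) ≤ (triples X₀).ncard := h3
        _ ≤ C₁ + C₂ + C₃ + (triples X₀).ncard := by linarith
        _ ≤ (C₁ + C₂ + C₃ + (triples X₀).ncard) * X ^ (2 / 3 - ν) :=
            le_mul_of_one_le_right (by positivity) hXν
    -- large `X`
    have hlX : L ≤ Real.log X := by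
      rw [Real.le_log_iff_exp_le hX0]
      exact hXX
    have hlog9 : Real.log 9 ≤ Real.log X := (le_max_left _ _).trans hlX
    have hX9 : 9 ≤ X := (Real.log_le_log_iff (by norm_num) hX0).1 hlog9
    have hlX0 : 0 < Real.log X := Real.log_pos (by linarith)
    -- the set of the third kind
    set E : Set (ℕ × ℕ) := {t | t ∈ exceptions K M X ∧
      ((t.1 + t.2 : ℕ) : ℝ) < (gam (t.1 * t.2 * (t.1 + t.2)) : ℝ) ^ M' ∧
      X ^ (1 / 2 : ℝ) < (gam (t.1 * t.2 * (t.1 + t.2)) : ℝ)} with hE
    have hEfin : E.Finite := hexfin.subset fun t ht => ht.1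
    have hcov : exceptions K M X ⊆ triples (X ^ (1 / 2 : ℝ)) ∪
        Pool.Agent.Y911.AA.viol M' X ∪ E := by
      intro t ht
      rcases le_or_gt (gam (t.1 * t.2 * (t.1 + t.2)) : ℝ) (X ^ (1 / 2 : ℝ)) with h3 | h3
      · exact Or.inl (Or.inl ⟨ht.1.1, ht.1.2.1, ht.1.2.2.1, h3⟩)
      rcases le_or_gt ((gam (t.1 * t.2 * (t.1 + t.2)) : ℝ) ^ M') ((t.1 + t.2 : ℕ) : ℝ) with h4 | h4
      · exact Or.inl (Or.inr ⟨ht.1, h4⟩)
      · exact Or.inr ⟨ht, h4, h3⟩
    have hE3 : (E.ncard : ℝ) ≤ C₃ * X ^ (2 / 3 - ν₃) := by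
      rw [Set.ncard_eq_toFinset_card _ hEfin]
      refine hc3 X (by linarith) _ fun t ht => ?_
      rw [Set.Finite.mem_toFinset] at ht
      obtain ⟨⟨h3, h4⟩, h5, h6⟩ := ht
      have hr0 : (0 : ℝ) < gam (t.1 * t.2 * (t.1 + t.2)) := by exact_mod_cast gam_pos _
      refine ⟨h3.1, by have := h3.1; have := h3.2.1; omega, h3.2.2.1, ?_, h3.2.2.2, ?_⟩
      · exact h5.le.trans (Real.rpow_le_rpow hr0.le h3.2.2.2 (by linarith))
      · set r : ℝ := (gam (t.1 * t.2 * (t.1 + t.2)) : ℝ) with hr
        set k : ℕ := (t.1 * t.2 * (t.1 + t.2)).primeFactors.card with hk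
        have hrX : r ≤ X := h3.2.2.2
        have hlr : Real.log X / 2 < Real.log r := by
          have := Real.log_lt_log (by positivity) h6
          rw [Real.log_rpow hX0] at this
          linarith
        have hlr1 : 1 < Real.log r := by
          have h7 : Real.log 9 = 2 * Real.log 3 := by
            rw [show (9 : ℝ) = 3 ^ 2 by norm_num, Real.log_pow]
            norm_num
          have h8 : 1 < Real.log 3 := by
            rw [Real.lt_log_iff_exp_lt (by norm_num)]
            exact lt_of_lt_of_le Real.exp_one_lt_d9 (by norm_num)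
          linarith
        have hll : 0 < Real.log (Real.log r) := Real.log_pos hlr1
        have hH : H (t.1 * t.2 * (t.1 + t.2)) = r / Real.log r ^ k := rfl
        have h7 : K * (r / Real.log r ^ k) ^ M < r ^ M' := by
          rw [← hH]
          exact h4.trans_lt h5
        have hq : 0 < r / Real.log r ^ k := by positivity
        have h8 := Real.log_lt_log (by positivity) h7
        rw [Real.log_mul hK.ne' (by positivity), Real.log_rpow hq, Real.log_rpow hr0,
          Real.log_div hr0.ne' (by positivity), Real.log_pow] at h8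
        have h9 : -|Real.log K| ≤ Real.log K := neg_abs_le _
        have h10 : 4 * |Real.log K| / (M - M') ≤ Real.log X := (le_max_right _ _).trans hlX
        rw [div_le_iff₀ (by linarith)] at h10
        have h11 : Real.log (Real.log r) ≤ Real.log (Real.log X) :=
          Real.log_le_log (by linarith) (Real.log_le_log hr0 hrX)
        have h12 : (M - M') / 4 * Real.log X ≤ M * (k * Real.log (Real.log r)) := by
          nlinarith [mul_lt_mul_of_pos_left hlr (show 0 < M - M' by linarith)]
        have h13 : η * Real.log X ≤ k * Real.log (Real.log r) := by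
          rw [hη, div_mul_eq_mul_div, div_le_iff₀ (by linarith)]
          nlinarith
        refine h13.trans ?_
        exact mul_le_mul_of_nonneg_left h11 (Nat.cast_nonneg _)
    have h3 : ((exceptions K M X).ncard : ℝ) ≤ ((triples (X ^ (1 / 2 : ℝ))).ncard : ℝ) +
        ((Pool.Agent.Y911.AA.viol M' X).ncard : ℝ) + (E.ncard : ℝ) := by
      have hvf : (Pool.Agent.Y911.AA.viol M' X).Finite := (hfin X).subset fun t ht => ht.1
      have h4 := Set.ncard_le_ncard hcov (((hfin _).union hvf).union hEfin)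
      have h5 := Set.ncard_union_le (triples (X ^ (1 / 2 : ℝ)) ∪ Pool.Agent.Y911.AA.viol M' X) E
      have h6 := Set.ncard_union_le (triples (X ^ (1 / 2 : ℝ))) (Pool.Agent.Y911.AA.viol M' X)
      exact_mod_cast h4.trans (h5.trans (Nat.add_le_add_right h6 _))
    have h4 : ((triples (X ^ (1 / 2 : ℝ))).ncard : ℝ) ≤ C₁ * X ^ (2 / 3 - ν) := by
      refine (hc1 _ (Real.one_le_rpow hX (by norm_num))).trans ?_
      rw [← Real.rpow_mul hX0.le]
      refine mul_le_mul_of_nonneg_left (Real.rpow_le_rpow_of_exponent_le hX ?_) hC₁.le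
      have : ν ≤ 1 / 3 := min_le_right _ _
      linarith
    have h5 : ((Pool.Agent.Y911.AA.viol M' X).ncard : ℝ) ≤ C₂ * X ^ (2 / 3 - ν) := by
      refine (hc2 X hX).trans ?_
      refine mul_le_mul_of_nonneg_left (Real.rpow_le_rpow_of_exponent_le hX ?_) hC₂.le
      have : ν ≤ ν₂ := (min_le_left _ _).trans (min_le_left _ _)
      linarith
    have h6 : (E.ncard : ℝ) ≤ C₃ * X ^ (2 / 3 - ν) := by
      refine hE3.trans ?_
      refine mul_le_mul_of_nonneg_left (Real.rpow_le_rpow_of_exponent_le hX ?_) hC₃.le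
      have : ν ≤ ν₃ := (min_le_left _ _).trans (min_le_right _ _)
      linarith
    have h7 : 0 ≤ ((triples X₀).ncard : ℝ) * X ^ (2 / 3 - ν) := by positivity
    nlinarith
  · ext t
    refine ⟨fun h => h.1, fun h => ⟨h, ?_⟩⟩
    have h3 : gam (t.1 * t.2 * (t.1 + t.2)) < (t.1 + t.2) ^ 3 :=
      Pool.Agent.Y911.AA.rad3_lt (X := X) h
    have ht1 := h.1
    have ht2 := h.2.1
    have hc2 : (2 : ℝ) ≤ ((t.1 + t.2 : ℕ) : ℝ) := by
      have : 2 ≤ t.1 + t.2 := by omega
      exact_mod_cast this
    set n : ℕ := t.1 * t.2 * (t.1 + t.2) with hn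
    set c : ℝ := ((t.1 + t.2 : ℕ) : ℝ) with hc
    have hg0 : (0 : ℝ) < gam n := by exact_mod_cast gam_pos n
    have h3' : (gam n : ℝ) ≤ c ^ 3 := by
      rw [hc]
      exact_mod_cast h3.le
    have hH0 : 0 < H n ∧ H n ≤ c ^ 3 := by
      rcases Nat.lt_or_ge (gam n) 3 with h4 | h4
      · -- radical 1 or 2
        have h5 : (2 : ℕ) ∣ n := by
          rw [hn]
          rcases Nat.even_or_odd t.1 with h6 | h6
          · exact ((even_iff_two_dvd.1 h6).mul_right _).mul_right _
          · rcases Nat.even_or_odd t.2 with h7 | h7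
            · exact ((even_iff_two_dvd.1 h7).mul_left _).mul_right _
            · exact (even_iff_two_dvd.1 (h6.add_odd h7)).mul_left _
        have hn0 : n ≠ 0 := by
          have : 0 < t.2 := by omega
          rw [hn]
          positivity
        have h6 : 2 ∈ n.primeFactors := Nat.mem_primeFactors.2 ⟨Nat.prime_two, h5, hn0⟩
        have h7 : gam n = 2 := by
          have : 2 ∣ gam n := Finset.dvd_prod_of_mem _ h6
          have := Nat.le_of_dvd (gam_pos n) this
          omega
        have h8 : n.primeFactors = {2} := by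
          ext q
          rw [Finset.mem_singleton]
          constructor
          · intro hq
            have h9 : q ∣ gam n := Finset.dvd_prod_of_mem _ hq
            rw [h7] at h9
            exact (Nat.prime_dvd_prime_iff_eq (Nat.prime_of_mem_primeFactors hq)
              Nat.prime_two).1 h9
          · rintro rfl
            exact h6
        unfold H
        rw [h7, h8, Finset.card_singleton, pow_one]
        have h9 : (0.69 : ℝ) < Real.log 2 := lt_trans (by norm_num) Real.log_two_gt_d9
        push_cast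
        refine ⟨by positivity, ?_⟩
        rw [div_le_iff₀ (by linarith)]
        have h10 : (8 : ℝ) ≤ c ^ 3 := by
          calc (8 : ℝ) = 2 ^ 3 := by norm_num
            _ ≤ c ^ 3 := pow_le_pow_left₀ (by norm_num) hc2 3
        nlinarith
      · have h5 : (1 : ℝ) ≤ Real.log (gam n : ℝ) := by
          rw [Real.le_log_iff_exp_le hg0]
          have : (3 : ℝ) ≤ gam n := by exact_mod_cast h4
          exact (lt_of_lt_of_le Real.exp_one_lt_d9 (by norm_num)).le.trans this
        have h6 : (1 : ℝ) ≤ Real.log (gam n : ℝ) ^ n.primeFactors.card := one_le_pow₀ h5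
        unfold H
        refine ⟨by positivity, ?_⟩
        exact (div_le_self hg0.le h6).trans h3'
    have hc0 : 0 < c := by linarith
    show 1 * H n ^ M ≤ c
    rw [one_mul]
    rcases le_or_gt 1 (H n) with h4 | h4
    · calc H n ^ M ≤ H n ^ ((1 : ℝ) / 3) := Real.rpow_le_rpow_of_exponent_le h4 hM
        _ ≤ (c ^ 3) ^ ((1 : ℝ) / 3) := Real.rpow_le_rpow hH0.1.le hH0.2 (by norm_num)
        _ = c := by
            rw [← Real.rpow_natCast, ← Real.rpow_mul hc0.le]
            norm_num
    · calc H n ^ M ≤ 1 := Real.rpow_le_one hH0.1.le h4.le hM0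
        _ ≤ c := by linarith

end Pool.Agent.Results.MP_14cf73_nt.AlmostAllTriples
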