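import Pool.Agent.X61.HX.Height

/-!
# Exceptions to `c < K H(abc) ^ M` among the triples with `c ≤ N`

`γ(n)` is the radical of `n` and `H(n) = γ(n) / (log γ(n)) ^ ω(n)`. Among the admissible triples
`a + b = c` with `a ≤ b` and `c ≤ N` (ordered by height) at most `C N ^ (2/(3M) + δ)` violate
`c < K H(abc) ^ M`, for all `K, M, δ > 0`; for the exponents `M = 1 + ε` of the problem this is less
than `N ^ (2/3)`. For `1/2 ≤ M < 1` at least `c₁ N ^ (1/M - 1)` of them violate it.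

Since `γ(abc)` may exceed `H(abc)` by the factor `(log γ(abc)) ^ ω(abc)`, which can be a power of
`c`, the pairs are counted with weights: for two of the three members `(log N) ^ (-ω(m)) γ(m)` has
product at most `(H(abc)) ^ (2/3)` up to constants, and the sum of `(log N) ^ ω(m) / γ(m)` over
`m ≤ N` is `N ^ o(1)`.
-/

set_option autoImplicit false

namespace Pool.Agent.Results.MP_14cf73_nt.ExceptionsByHeight

open Finset

/-- the radical `γ(n)`: the product of the distinct primes dividing `n` -/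
def gam (n : ℕ) : ℕ := ∏ p ∈ n.primeFactors, p

/-- `H(n) = γ(n) / (log γ(n)) ^ ω(n)`, where `ω(n)` is the number of distinct primes dividing `n`
(and `0 ^ 0 = 1`) -/
noncomputable def H (n : ℕ) : ℝ := (gam n : ℝ) / Real.log (gam n : ℝ) ^ n.primeFactors.card

/-- the admissible triples `(a, b, a + b)`, written `(a, b)`, with `a ≤ b` and `a + b ≤ N`, which
violate `c < K H(abc) ^ M`, where `c = a + b` -/
def exceptions (K M : ℝ) (N : ℕ) : Set (ℕ × ℕ) :=
  {t | 0 < t.1 ∧ t.1 ≤ t.2 ∧ Nat.Coprime t.1 t.2 ∧ t.1 + t.2 ≤ N ∧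
    K * H (t.1 * t.2 * (t.1 + t.2)) ^ M ≤ ((t.1 + t.2 : ℕ) : ℝ)}

theorem gam_pos (n : ℕ) : 0 < gam n :=
  Finset.prod_pos fun _ hp => (Nat.prime_of_mem_primeFactors hp).pos

theorem gam_le {n : ℕ} (hn : 0 < n) : gam n ≤ n :=
  Nat.le_of_dvd hn (Nat.prod_primeFactors_dvd n)

theorem le_gam {n p : ℕ} (hn : n ≠ 0) (hp : p.Prime) (h : p ∣ n) : p ≤ gam n :=
  Nat.le_of_dvd (gam_pos n) (Finset.dvd_prod_of_mem _ (Nat.mem_primeFactors.2 ⟨hp, h, hn⟩))

theorem exc_finite (K M : ℝ) (N : ℕ) : (exceptions K M N).Finite := by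
  refine (Set.Finite.prod (Set.finite_Iic N) (Set.finite_Iic N)).subset ?_
  intro t ht
  obtain ⟨h1, h2, h3, h4, -⟩ := ht
  simp only [Set.mem_prod, Set.mem_Iic]
  omega

theorem upper {K M δ : ℝ} (hK : 0 < K) (hM : 0 < M) (hδ : 0 < δ) : ∃ C : ℝ, 0 < C ∧
    ∀ N : ℕ, 1 ≤ N → ((exceptions K M N).ncard : ℝ) ≤ C * (N : ℝ) ^ (2 / (3 * M) + δ) := by
  obtain ⟨C, hC, h⟩ := Pool.Agent.X61.HX.height_count hδ
  refine ⟨C * K ^ (-(2 / (3 * M))), by positivity, fun N hN => ?_⟩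
  have hN1 : (1 : ℝ) ≤ N := by exact_mod_cast hN
  have hN0 : (0 : ℝ) < N := by linarith
  have hlN : 0 ≤ Real.log N := Real.log_nonneg hN1
  set Q : ℝ := ((N : ℝ) / K) ^ (1 / M) with hQ
  have hQ0 : 0 < Q := by positivity
  have h1 := h Q N hQ0 hN (exc_finite K M N).toFinset (fun t ht => by
    rw [Set.Finite.mem_toFinset] at ht
    obtain ⟨h1, h2, h3, h4, h5⟩ := ht
    have h6 : 0 < t.2 := by omega
    refine ⟨h1, h6, h3, h4, ?_⟩
    set n : ℕ := t.1 * t.2 * (t.1 + t.2) with hn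
    have hn2 : 2 ≤ n := by
      have : 1 ≤ t.1 * t.2 := Nat.mul_pos h1 h6
      calc 2 ≤ 1 * (t.1 + t.2) := by omega
        _ ≤ _ := Nat.mul_le_mul_right _ this
    have hnN : n ≤ N ^ 3 := by
      calc n = t.1 * t.2 * (t.1 + t.2) := hn
        _ ≤ N * N * N := by
            apply Nat.mul_le_mul (Nat.mul_le_mul _ _) h4
            · omega
            · omega
        _ = N ^ 3 := by ring
    change (gam n : ℝ) ≤ Q * (3 * Real.log N + 3) ^ n.primeFactors.card
    obtain ⟨p, hp, hpn⟩ := Nat.exists_prime_and_dvd (show n ≠ 1 by omega)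
    have hg2 : (2 : ℝ) ≤ gam n := by
      exact_mod_cast hp.two_le.trans (le_gam (by omega) hp hpn)
    have hg0 : (0 : ℝ) < gam n := by linarith
    have hl0 : 0 < Real.log (gam n : ℝ) := Real.log_pos (by linarith)
    have hlp : 0 < Real.log (gam n : ℝ) ^ n.primeFactors.card := by positivity
    have hl3 : Real.log (gam n : ℝ) ≤ 3 * Real.log N + 3 := by
      have h7 : (gam n : ℝ) ≤ (N : ℝ) ^ 3 := by
        exact_mod_cast (gam_le (by omega)).trans hnN
      have h8 := Real.log_le_log hg0 h7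
      rw [Real.log_pow] at h8
      push_cast at h8
      linarith
    have hH0 : 0 < H n := div_pos hg0 hlp
    have hHQ : H n ≤ Q := by
      have h7 : H n ^ M ≤ (N : ℝ) / K := by
        rw [le_div_iff₀ hK]
        have h8 : ((t.1 + t.2 : ℕ) : ℝ) ≤ N := by exact_mod_cast h4
        linarith
      calc H n = (H n ^ M) ^ (1 / M) := by
            rw [← Real.rpow_mul hH0.le, mul_one_div_cancel hM.ne', Real.rpow_one]
        _ ≤ Q := Real.rpow_le_rpow (by positivity) h7 (by positivity)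
    calc (gam n : ℝ) = H n * Real.log (gam n : ℝ) ^ n.primeFactors.card := by
          unfold H
          rw [div_mul_cancel₀ _ hlp.ne']
      _ ≤ Q * (3 * Real.log N + 3) ^ n.primeFactors.card := by
          refine mul_le_mul hHQ (pow_le_pow_left₀ hl0.le hl3 _) hlp.le hQ0.le)
  rw [Set.ncard_eq_toFinset_card _ (exc_finite K M N)]
  refine h1.trans (le_of_eq ?_)
  have h2 : Q ^ (2 / 3 : ℝ) = (N : ℝ) ^ (2 / (3 * M)) * K ^ (-(2 / (3 * M))) := by
    have e : 1 / M * (2 / 3) = 2 / (3 * M) := by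
      rw [div_mul_div_comm, one_mul, mul_comm M 3]
    rw [hQ, ← Real.rpow_mul (by positivity), e, Real.div_rpow hN0.le hK.le, Real.rpow_neg hK.le,
      div_eq_mul_inv]
  rw [h2, Real.rpow_add hN0]
  ring

theorem lower {K M : ℝ} (hK : 0 < K) (hM : 1 / 2 ≤ M) (hM1 : M < 1) : ∃ c : ℝ, 0 < c ∧
    ∃ N₀ : ℕ, ∀ N : ℕ, N₀ ≤ N → c * (N : ℝ) ^ (1 / M - 1) ≤ ((exceptions K M N).ncard : ℝ) := by
  have hM0 : 0 < M := by linarith
  set θ : ℝ := 1 / M - 1 with hθ
  have hθ0 : 0 < θ := by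
    have : 1 < 1 / M := (one_lt_div hM0).2 hM1
    linarith
  have hθ1 : θ ≤ 1 := by
    have : 1 / M ≤ 2 := by
      rw [div_le_iff₀ hM0]
      linarith
    linarith
  set κ : ℝ := min (1 / 16) (K ^ (-(1 / M)) / 8) with hκ
  have hκ0 : 0 < κ := lt_min (by norm_num) (by positivity)
  have hκ1 : κ ≤ 1 / 16 := min_le_left _ _
  have hκ2 : 8 * κ ≤ K ^ (-(1 / M)) := by
    have : κ ≤ K ^ (-(1 / M)) / 8 := min_le_right _ _
    linarith
  -- threshold
  obtain ⟨N₁, hN₁⟩ := exists_nat_ge ((1 / κ) ^ (1 / θ))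
  refine ⟨κ / 2, by positivity, N₁ + 16, fun N hN => ?_⟩
  have hN16 : 16 ≤ N := by omega
  have hN1 : (16 : ℝ) ≤ N := by exact_mod_cast hN16
  have hN0 : (0 : ℝ) < N := by linarith
  have hbig : 1 ≤ κ * (N : ℝ) ^ θ := by
    have h1 : (1 / κ) ^ (1 / θ) ≤ (N : ℝ) := by
      refine hN₁.trans ?_
      exact_mod_cast (by omega : N₁ ≤ N)
    have h2 := Real.rpow_le_rpow (by positivity) h1 hθ0.le
    rw [← Real.rpow_mul (by positivity), one_div_mul_cancel hθ0.ne', Real.rpow_one] at h2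
    rw [div_le_iff₀ hκ0] at h2
    linarith
  set m : ℕ := ⌊κ * (N : ℝ) ^ θ⌋₊ with hm
  have hm1 : (m : ℝ) ≤ κ * (N : ℝ) ^ θ := Nat.floor_le (by positivity)
  have hm2 : κ / 2 * (N : ℝ) ^ θ ≤ m := by
    have h1 : κ * (N : ℝ) ^ θ < m + 1 := Nat.lt_floor_add_one _
    have h2 : 1 ≤ m := by
      rw [hm]
      exact Nat.le_floor (by exact_mod_cast hbig)
    have h3 : (1 : ℝ) ≤ m := by exact_mod_cast h2
    nlinarith
  refine hm2.trans ?_
  -- the power of two
  set k : ℕ := Nat.log 2 N with hk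
  have hk1 : 2 ^ k ≤ N := Nat.pow_log_le_self 2 (by omega)
  have hk2 : N < 2 ^ (k + 1) := Nat.lt_pow_succ_log_self (by norm_num) N
  have hNθ : (N : ℝ) ^ θ ≤ N := by
    calc (N : ℝ) ^ θ ≤ (N : ℝ) ^ (1 : ℝ) := Real.rpow_le_rpow_of_exponent_le (by linarith) hθ1
      _ = N := Real.rpow_one _
  have hm16 : 16 * m ≤ N := by
    have : (16 : ℝ) * m ≤ N := by
      have : κ * (N : ℝ) ^ θ ≤ 1 / 16 * N :=
        mul_le_mul hκ1 hNθ (by positivity) (by norm_num)
      linarith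
    exact_mod_cast this
  rw [pow_succ] at hk2
  have hk8 : 8 * m < 2 ^ k := by omega
  have hk9 : 8 < 2 ^ k := by omega
  let f : ℕ → ℕ × ℕ := fun i => (2 * i + 1, 2 ^ k - (2 * i + 1))
  have hkpos : k ≠ 0 := by
    rintro h
    rw [h] at hk9
    norm_num at hk9
  have hkeven : 2 ∣ 2 ^ k := dvd_pow_self 2 hkpos
  have hmem : ∀ i ∈ Finset.range m, f i ∈ exceptions K M N := by
    intro i hi
    rw [Finset.mem_range] at hi
    have hle : 2 * i + 1 ≤ 2 ^ k := by omega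
    have hsum : (f i).1 + (f i).2 = 2 ^ k := by
      change 2 * i + 1 + (2 ^ k - (2 * i + 1)) = 2 ^ k
      omega
    have hcop : Nat.Coprime (f i).1 (f i).2 := by
      rw [← Nat.coprime_self_add_right (m := (f i).1) (n := (f i).2), hsum]
      change Nat.Coprime (2 * i + 1) (2 ^ k)
      apply Nat.Coprime.pow_right
      rw [Nat.coprime_two_right]
      exact ⟨i, rfl⟩
    refine ⟨by change 0 < 2 * i + 1; omega, by change 2 * i + 1 ≤ 2 ^ k - (2 * i + 1); omega,
      hcop, by rw [hsum]; exact hk1, ?_⟩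
    rw [hsum]
    set a : ℕ := 2 * i + 1 with ha
    set b : ℕ := 2 ^ k - a with hb
    have hfa : (f i).1 = a := rfl
    have hfb : (f i).2 = b := rfl
    rw [hfa, hfb]
    have hb0 : 3 ≤ b := by omega
    have ha0 : 1 ≤ a := by omega
    have hbodd : ¬ 2 ∣ b := by omega
    -- an odd prime factor
    obtain ⟨p, hp, hpb⟩ := Nat.exists_prime_and_dvd (show b ≠ 1 by omega)
    have hp2 : p ≠ 2 := by
      rintro rfl
      exact hbodd hpb
    have hp3 : 3 ≤ p := by
      have := hp.two_le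
      omega
    have hn0 : a * b * 2 ^ k ≠ 0 := by positivity
    have hg3 : 3 ≤ gam (a * b * 2 ^ k) :=
      hp3.trans (le_gam hn0 hp ((hpb.mul_left a).mul_right _))
    have hg3' : (3 : ℝ) ≤ gam (a * b * 2 ^ k) := by exact_mod_cast hg3
    have hlog : 1 ≤ Real.log (gam (a * b * 2 ^ k) : ℝ) := by
      rw [Real.le_log_iff_exp_le (by linarith)]
      have := Real.exp_one_lt_d9
      linarith
    have hH : H (a * b * 2 ^ k) ≤ gam (a * b * 2 ^ k) := by
      unfold H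
      exact div_le_self (by positivity) (one_le_pow₀ hlog)
    have hH0 : 0 ≤ H (a * b * 2 ^ k) := by
      unfold H
      have : 0 ≤ Real.log (gam (a * b * 2 ^ k) : ℝ) := by linarith
      positivity
    -- the radical
    have hgle : gam (a * b * 2 ^ k) ≤ a * b * 2 := by
      have h1 : gam (a * b * 2 ^ k) = gam (a * b * 2) := by
        unfold gam
        congr 1
        ext q
        simp only [Nat.mem_primeFactors]
        constructor
        · rintro ⟨hq, h2, h3⟩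
          refine ⟨hq, ?_, by positivity⟩
          rcases (Nat.Prime.dvd_mul hq).1 h2 with h4 | h4
          · exact h4.mul_right _
          · exact (hq.dvd_of_dvd_pow h4).mul_left _
        · rintro ⟨hq, h2, h3⟩
          exact ⟨hq, h2.trans (Nat.mul_dvd_mul_left _ hkeven), hn0⟩
      rw [h1]
      exact gam_le (by positivity)
    have hbk : b ≤ 2 ^ k := by omega
    have ham : a ≤ 2 * m := by omega
    have hg4 : (gam (a * b * 2 ^ k) : ℝ) ≤ 4 * m * 2 ^ k := by
      have : gam (a * b * 2 ^ k) ≤ 4 * m * 2 ^ k := by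
        calc gam (a * b * 2 ^ k) ≤ a * b * 2 := hgle
          _ ≤ (2 * m) * 2 ^ k * 2 := Nat.mul_le_mul_right _ (Nat.mul_le_mul ham hbk)
          _ = _ := by ring
      exact_mod_cast this
    have hT0 : (0 : ℝ) < (2 : ℝ) ^ k := by positivity
    have hNθ2 : (N : ℝ) ^ θ ≤ 2 * ((2 : ℝ) ^ k) ^ θ := by
      have h1 : (N : ℝ) ≤ 2 * (2 : ℝ) ^ k := by
        have : N ≤ 2 * 2 ^ k := by omega
        exact_mod_cast this
      calc (N : ℝ) ^ θ ≤ (2 * (2 : ℝ) ^ k) ^ θ := Real.rpow_le_rpow hN0.le h1 hθ0.le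
        _ = (2 : ℝ) ^ θ * ((2 : ℝ) ^ k) ^ θ := Real.mul_rpow (by norm_num) hT0.le
        _ ≤ 2 * ((2 : ℝ) ^ k) ^ θ := by
            refine mul_le_mul_of_nonneg_right ?_ (by positivity)
            calc (2 : ℝ) ^ θ ≤ (2 : ℝ) ^ (1 : ℝ) :=
                  Real.rpow_le_rpow_of_exponent_le (by norm_num) hθ1
              _ = 2 := Real.rpow_one _
    have hg5 : (gam (a * b * 2 ^ k) : ℝ) ≤ K ^ (-(1 / M)) * ((2 : ℝ) ^ k) ^ (1 / M) := by
      have h1 : ((2 : ℝ) ^ k) ^ (1 / M) = ((2 : ℝ) ^ k) ^ θ * (2 : ℝ) ^ k := by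
        rw [show 1 / M = θ + 1 by rw [hθ]; ring, Real.rpow_add hT0, Real.rpow_one]
      rw [h1]
      calc (gam (a * b * 2 ^ k) : ℝ) ≤ 4 * m * 2 ^ k := hg4
        _ ≤ 4 * (κ * (2 * ((2 : ℝ) ^ k) ^ θ)) * 2 ^ k := by
            refine mul_le_mul_of_nonneg_right ?_ hT0.le
            refine mul_le_mul_of_nonneg_left ?_ (by norm_num)
            exact hm1.trans (mul_le_mul_of_nonneg_left hNθ2 hκ0.le)
        _ = 8 * κ * (((2 : ℝ) ^ k) ^ θ * 2 ^ k) := by ring
        _ ≤ _ := mul_le_mul_of_nonneg_right hκ2 (by positivity)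
    have h6 : H (a * b * 2 ^ k) ^ M ≤ K⁻¹ * (2 : ℝ) ^ k := by
      calc H (a * b * 2 ^ k) ^ M
          ≤ (K ^ (-(1 / M)) * ((2 : ℝ) ^ k) ^ (1 / M)) ^ M :=
            Real.rpow_le_rpow hH0 (hH.trans hg5) hM0.le
        _ = K⁻¹ * (2 : ℝ) ^ k := by
            rw [Real.mul_rpow (by positivity) (by positivity), ← Real.rpow_mul hK.le,
              ← Real.rpow_mul hT0.le, one_div_mul_cancel hM0.ne', Real.rpow_one,
              neg_mul, one_div_mul_cancel hM0.ne', Real.rpow_neg_one]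
    calc K * H (a * b * 2 ^ k) ^ M ≤ K * (K⁻¹ * (2 : ℝ) ^ k) :=
          mul_le_mul_of_nonneg_left h6 hK.le
      _ = ((2 ^ k : ℕ) : ℝ) := by
          rw [← mul_assoc, mul_inv_cancel₀ hK.ne', one_mul]
          push_cast
          rfl
  have hinj : Set.InjOn f (Finset.range m) := by
    intro i _ j _ h
    have h1 : (f i).1 = (f j).1 := by rw [h]
    change 2 * i + 1 = 2 * j + 1 at h1
    omega
  have h1 : ((Finset.range m).image f : Set (ℕ × ℕ)) ⊆ exceptions K M N := by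
    intro t ht
    rw [Finset.mem_coe, Finset.mem_image] at ht
    obtain ⟨i, hi, rfl⟩ := ht
    exact hmem i hi
  have h2 := Set.ncard_le_ncard h1 (exc_finite K M N)
  rw [Set.ncard_coe_finset, Finset.card_image_of_injOn hinj, Finset.card_range] at h2
  exact_mod_cast h2

/-- **Exceptions to the `H`-inequality, ordered by height.** (1) For all `K, M, δ > 0` the number
of admissible triples with `a ≤ b`, `c ≤ N` which violate `c < K H(abc) ^ M` is at most
`C N ^ (2/(3M) + δ)`. In particular for `M = 1 + ε`, `ε > 0` and every `K` it is `O(N ^ (2/3 - ν))`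
for a `ν > 0`, for example any `ν < 2ε/(3(1 + ε))`. (2) For `1/2 ≤ M < 1` it is at least
`c₁ N ^ (1/M - 1)` for all large `N`. -/
theorem result :
    (∀ K M δ : ℝ, 0 < K → 0 < M → 0 < δ → ∃ C : ℝ, 0 < C ∧ ∀ N : ℕ, 1 ≤ N →
      (exceptions K M N).Finite ∧
      ((exceptions K M N).ncard : ℝ) ≤ C * (N : ℝ) ^ (2 / (3 * M) + δ)) ∧
    (∀ K M : ℝ, 0 < K → 1 / 2 ≤ M → M < 1 → ∃ c₁ : ℝ, 0 < c₁ ∧ ∃ N₀ : ℕ, ∀ N : ℕ, N₀ ≤ N →
      c₁ * (N : ℝ) ^ (1 / M - 1) ≤ ((exceptions K M N).ncard : ℝ)) := by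
  refine ⟨fun K M δ hK hM hδ => ?_, fun K M hK hM hM1 => lower hK hM hM1⟩
  obtain ⟨C, hC, h⟩ := upper hK hM hδ
  exact ⟨C, hC, fun N hN => ⟨exc_finite K M N, h N hN⟩⟩

end Pool.Agent.Results.MP_14cf73_nt.ExceptionsByHeight
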