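import Pool.Agent.Results.MP_7aad9f_nt.JointLaw
import Pool.Agent.X4.HC.Turan

/-!
# The size of `c` against `H(abc)` for almost all admissible triples

`γ(n)` is the radical of `n` and `H(n) = γ(n) / (log γ(n)) ^ ω(n)`. The admissible triples
`a + b = c`, of whatever height, are ordered by `γ(abc)`. For almost all of them
`c = H(abc) ^ (1/3) exp ((1 + o(1)) (log log c) ^ 2)`. In particular, for almost all triples the
ratio `c / H(abc) ^ (1/3)` tends to infinity faster than every power of `log c` and slower than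
every positive power of `c`.
-/

set_option autoImplicit false

namespace Pool.Agent.Results.MP_14cf73_nt.TypicalSize

open Filter Topology Finset

/-- the radical `γ(n)`: the product of the distinct primes dividing `n` -/
def gam (n : ℕ) : ℕ := ∏ p ∈ n.primeFactors, p

/-- `H(n) = γ(n) / (log γ(n)) ^ ω(n)`, where `ω(n)` is the number of distinct primes dividing `n`
(and `0 ^ 0 = 1`) -/
noncomputable def H (n : ℕ) : ℝ := (gam n : ℝ) / Real.log (gam n : ℝ) ^ n.primeFactors.card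

/-- the admissible triples `(a, b, a + b)`, written `(a, b)`: coprime `1 ≤ a ≤ b` with
`γ(a b (a + b)) ≤ X`; there is no condition on the size of `a + b` -/
def triples (X : ℝ) : Set (ℕ × ℕ) :=
  {t | 0 < t.1 ∧ t.1 ≤ t.2 ∧ Nat.Coprime t.1 t.2 ∧ (gam (t.1 * t.2 * (t.1 + t.2)) : ℝ) ≤ X}

/-- `log (c / H(abc) ^ (1/3))` for the triple `t`, `c = a + b` -/
noncomputable def excess (t : ℕ × ℕ) : ℝ :=
  Real.log ((t.1 + t.2 : ℕ) : ℝ) - 1 / 3 * Real.log (H (t.1 * t.2 * (t.1 + t.2)))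

/-- `(log log c) ^ 2` for the triple `t`, `c = a + b` -/
noncomputable def main (t : ℕ × ℕ) : ℝ := Real.log (Real.log ((t.1 + t.2 : ℕ) : ℝ)) ^ 2

theorem gam_pos (n : ℕ) : 0 < gam n :=
  Finset.prod_pos fun _ hp => (Nat.prime_of_mem_primeFactors hp).pos

theorem triples_mono {X Y : ℝ} (h : X ≤ Y) : triples X ⊆ triples Y :=
  fun _ ht => ⟨ht.1, ht.2.1, ht.2.2.1, ht.2.2.2.trans h⟩

/-- the abnormal integers up to `N` -/
noncomputable def Ab (δ : ℝ) (N : ℕ) : Finset ℕ := (Icc 1 N).filter (fun n =>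
  δ * Real.log (Real.log N) < |(n.primeFactors.card : ℝ) - Real.log (Real.log N)|)

/-- the triples with an abnormal member -/
theorem card_abn (δ : ℝ) (N : ℕ) (S : Set (ℕ × ℕ))
    (hS : ∀ t ∈ S, 0 < t.1 ∧ 0 < t.2 ∧ t.1 + t.2 ≤ N ∧
      (t.1 ∈ Ab δ N ∨ t.2 ∈ Ab δ N ∨ t.1 + t.2 ∈ Ab δ N)) :
    (S.ncard : ℝ) ≤ 3 * (N * (Ab δ N).card) := by
  classical
  set F : Finset (ℕ × ℕ) := (Ab δ N ×ˢ Icc 1 N) ∪ (Icc 1 N ×ˢ Ab δ N) ∪
    (Ab δ N ×ˢ Icc 1 N).image (fun q => (q.2, q.1 - q.2)) with hF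
  have h1 : S ⊆ (F : Set (ℕ × ℕ)) := by
    intro t ht
    obtain ⟨h1, h2, h3, h4⟩ := hS t ht
    rw [mem_coe, hF, mem_union, mem_union, mem_product, mem_product, mem_image]
    rcases h4 with h4 | h4 | h4
    · left; left
      exact ⟨h4, mem_Icc.2 ⟨h2, by omega⟩⟩
    · left; right
      exact ⟨mem_Icc.2 ⟨h1, by omega⟩, h4⟩
    · right
      refine ⟨(t.1 + t.2, t.1), mem_product.2 ⟨h4, mem_Icc.2 ⟨h1, by omega⟩⟩, ?_⟩
      ext
      · rfl
      · show t.1 + t.2 - t.1 = t.2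
        omega
  have h2 : S.ncard ≤ F.card := by
    have := Set.ncard_le_ncard h1 F.finite_toSet
    rwa [Set.ncard_coe_finset] at this
  have h3 : F.card ≤ 3 * (N * (Ab δ N).card) := by
    refine (Finset.card_union_le _ _).trans ?_
    have h4 := Finset.card_union_le (Ab δ N ×ˢ Icc 1 N) (Icc 1 N ×ˢ Ab δ N)
    have h5 := Finset.card_image_le (s := Ab δ N ×ˢ Icc 1 N) (f := fun q : ℕ × ℕ => (q.2, q.1 - q.2))
    rw [Finset.card_product, Finset.card_product, Nat.card_Icc, Nat.add_sub_cancel] at h4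
    rw [Finset.card_product, Nat.card_Icc, Nat.add_sub_cancel] at h5
    nlinarith
  exact_mod_cast h2.trans h3

/-- the estimate for one triple -/
theorem pointwise {δ : ℝ} (hδ : 0 < δ) : ∃ ℓ₀ : ℝ, 1 ≤ ℓ₀ ∧ ∀ (ℓ l1 l2 l3 w e : ℝ),
    ℓ₀ ≤ ℓ → ℓ - 2 ≤ l1 → l1 ≤ ℓ → ℓ - 2 ≤ l2 → l2 ≤ ℓ → ℓ - 2 ≤ l3 → l3 ≤ ℓ →
    |w - 3 * l2| ≤ 3 * (δ / 4) * l2 → 0 ≤ e → e ≤ ℓ →
    |e + 1 / 3 * (w * l1) - l3 ^ 2| ≤ δ * l3 ^ 2 := by
  refine ⟨max 4 (80 / δ + 80), le_max_of_le_left (by norm_num), ?_⟩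
  intro ℓ l1 l2 l3 w e hℓ h1 h1' h2 h2' h3 h3' hw he he'
  have h4 : 4 ≤ ℓ := (le_max_left _ _).trans hℓ
  have h5 : 80 / δ + 80 ≤ ℓ := (le_max_right _ _).trans hℓ
  have h6 : 80 ≤ δ * (ℓ - 80) := by
    have h7 : 80 / δ ≤ ℓ - 80 := by linarith
    rw [div_le_iff₀ hδ] at h7
    linarith
  rw [abs_le] at hw ⊢
  have hl1 : 0 ≤ l1 := by linarith
  have hl2 : 0 ≤ l2 := by linarith
  have hl3 : 2 ≤ l3 := by linarith
  -- `l1 l2` is close to `l3 ^ 2`
  have ha : l1 * l2 ≤ ℓ ^ 2 := by nlinarith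
  have hb : (ℓ - 2) ^ 2 ≤ l1 * l2 := by nlinarith
  have hc : l3 ^ 2 ≤ ℓ ^ 2 := by nlinarith
  have hd : (ℓ - 2) ^ 2 ≤ l3 ^ 2 := by nlinarith
  have hwl1 : w * l1 ≤ (3 * l2 + 3 * (δ / 4) * l2) * l1 :=
    mul_le_mul_of_nonneg_right (by linarith [hw.2]) hl1
  have hwl2 : (3 * l2 - 3 * (δ / 4) * l2) * l1 ≤ w * l1 :=
    mul_le_mul_of_nonneg_right (by linarith [hw.1]) hl1
  constructor
  · have h7 : (1 / 3) * (w * l1) ≥ (1 - δ / 4) * (l1 * l2) := by nlinarith
    nlinarith [mul_nonneg hδ.le (sq_nonneg ℓ), mul_nonneg hδ.le (sq_nonneg (ℓ - 2))]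
  · have h7 : (1 / 3) * (w * l1) ≤ (1 + δ / 4) * (l1 * l2) := by nlinarith
    nlinarith [mul_nonneg hδ.le (sq_nonneg ℓ), mul_nonneg hδ.le (sq_nonneg (ℓ - 2))]

/-- **The typical size of `c`.** (1) The number of all admissible triples with `γ(abc) ≤ X`, of
whatever height, is finite and asymptotic to `κ X ^ (2/3)`, where `κ > 0`. (2) For every `δ > 0` the
proportion of those among them for which `log (c / H(abc) ^ (1/3))` differs from `(log log c) ^ 2` by
more than `δ (log log c) ^ 2` tends to zero for `X → ∞`. -/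
theorem result :
    (∀ X : ℝ, (triples X).Finite) ∧
    (∃ κ : ℝ, 0 < κ ∧
      Tendsto (fun X : ℝ => ((triples X).ncard : ℝ) / X ^ ((2 : ℝ) / 3)) atTop (𝓝 κ)) ∧
    ∀ δ : ℝ, 0 < δ → Tendsto (fun X : ℝ =>
      ({t | t ∈ triples X ∧ δ * main t < |excess t - main t|}.ncard : ℝ) /
        ((triples X).ncard : ℝ)) atTop (𝓝 0) := by
  obtain ⟨c₀, κ, hc₀, hκ, -, -, hfin', hcount', -, -, -, -, hpsi⟩ :=
    Pool.Agent.Results.MP_7aad9f_nt.JointLaw.result
  have eT : ∀ X : ℝ, Pool.Agent.Results.MP_7aad9f_nt.JointLaw.triples X = triples X := by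
    intro X
    ext t
    exact ⟨fun h => ⟨h.1.1, h.1.2.1, h.1.2.2, h.2⟩, fun h => ⟨⟨h.1, h.2.1, h.2.2.1⟩, h.2.2.2⟩⟩
  have hfin : ∀ X : ℝ, (triples X).Finite := fun X => by rw [← eT]; exact hfin' X
  have hcount : Tendsto (fun X : ℝ => ((triples X).ncard : ℝ) / X ^ ((2 : ℝ) / 3)) atTop
      (𝓝 κ) := by
    refine hcount'.congr fun X => ?_
    rw [eT]
  refine ⟨hfin, ⟨κ, hκ, hcount⟩, fun δ hδ => ?_⟩
  -- the auxiliary function
  set ψ : ℕ → ℝ := fun n => Real.log (Real.log (n : ℝ)) ^ (1 / 4 : ℝ) with hψ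
  have hψt : Tendsto ψ atTop atTop :=
    (tendsto_rpow_atTop (by norm_num)).comp
      (Real.tendsto_log_atTop.comp (Real.tendsto_log_atTop.comp tendsto_natCast_atTop_atTop))
  have hA := hpsi ψ hψt
  obtain ⟨C, hC0, hC⟩ := Pool.Agent.X4.HC.normal
  obtain ⟨ℓ₀, hℓ₀, hpt⟩ := pointwise hδ
  set E : ℝ → Set (ℕ × ℕ) := fun X => {t | t ∈ triples X ∧ δ * main t < |excess t - main t|}
    with hE
  set A : ℝ → Set (ℕ × ℕ) := fun X => {t | t ∈ triples X ∧
    ψ (gam (t.1 * t.2 * (t.1 + t.2))) * (gam (t.1 * t.2 * (t.1 + t.2)) : ℝ) ^ ((1 : ℝ) / 3) <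
      ((t.1 + t.2 : ℕ) : ℝ)} with hAd
  have hA' : Tendsto (fun X : ℝ => ((A X).ncard : ℝ) / X ^ ((2 : ℝ) / 3)) atTop (𝓝 0) := by
    refine hA.congr fun X => ?_
    rw [eT]
    rfl
  set G : ℝ → ℝ := fun X => Real.log (Real.log X) with hG
  have hGt : Tendsto G atTop atTop := Real.tendsto_log_atTop.comp Real.tendsto_log_atTop
  -- the bound
  have hmain : ∀ᶠ X : ℝ in atTop, ((E X).ncard : ℝ) / X ^ ((2 : ℝ) / 3) ≤
      ((A X).ncard : ℝ) / X ^ ((2 : ℝ) / 3) +
      ((triples (X ^ (1 / 2 : ℝ))).ncard : ℝ) / (X ^ (1 / 2 : ℝ)) ^ ((2 : ℝ) / 3) *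
        X ^ (-(1 / 3) : ℝ) + 96 * C / δ ^ 2 * (G X) ^ (-(1 / 2) : ℝ) := by
    filter_upwards [hGt.eventually_ge_atTop ℓ₀, hGt.eventually_ge_atTop 4,
      eventually_ge_atTop (16 ^ 6 : ℝ)] with X hX1 hX2 hX3
    have hX0 : 0 < X := by linarith
    have hXge1 : 1 ≤ X := by linarith
    set ℓ : ℝ := G X with hℓ
    have hlX0 : 0 < Real.log X := Real.log_pos (by linarith)
    set Ψ : ℝ := ℓ ^ (1 / 4 : ℝ) with hΨ
    have hΨ1 : 1 ≤ Ψ := Real.one_le_rpow (by linarith) (by norm_num)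
    have hΨℓ : Ψ ≤ ℓ := by
      calc Ψ ≤ ℓ ^ (1 : ℝ) := Real.rpow_le_rpow_of_exponent_le (by linarith) (by norm_num)
        _ = ℓ := Real.rpow_one _
    set N : ℕ := ⌊Ψ * X ^ ((1 : ℝ) / 3)⌋₊ with hN
    have hΨX : 0 ≤ Ψ * X ^ ((1 : ℝ) / 3) := by positivity
    have hNle : (N : ℝ) ≤ Ψ * X ^ ((1 : ℝ) / 3) := Nat.floor_le hΨX
    have hNge : X ^ ((1 : ℝ) / 6) ≤ N := by
      have h1 : Ψ * X ^ ((1 : ℝ) / 3) < N + 1 := Nat.lt_floor_add_one _
      have h2 : X ^ ((1 : ℝ) / 3) ≤ Ψ * X ^ ((1 : ℝ) / 3) :=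
        le_mul_of_one_le_left (by positivity) hΨ1
      have h3 : X ^ ((1 : ℝ) / 3) = X ^ ((1 : ℝ) / 6) * X ^ ((1 : ℝ) / 6) := by
        rw [← Real.rpow_add hX0]
        norm_num
      have h4 : (16 : ℝ) ≤ X ^ ((1 : ℝ) / 6) := by
        calc (16 : ℝ) = ((16 : ℝ) ^ 6) ^ ((1 : ℝ) / 6) := by
              rw [← Real.rpow_natCast, ← Real.rpow_mul (by norm_num)]
              norm_num
          _ ≤ _ := Real.rpow_le_rpow (by norm_num) hX3 (by norm_num)
      nlinarith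
    have hX16 : (16 : ℝ) ≤ X ^ ((1 : ℝ) / 6) := by
      calc (16 : ℝ) = ((16 : ℝ) ^ 6) ^ ((1 : ℝ) / 6) := by
            rw [← Real.rpow_natCast, ← Real.rpow_mul (by norm_num)]
            norm_num
        _ ≤ _ := Real.rpow_le_rpow (by norm_num) hX3 (by norm_num)
    have hN16 : 16 ≤ N := by
      have : (16 : ℝ) ≤ N := hX16.trans hNge
      exact_mod_cast this
    have hNX : (N : ℝ) ≤ X := by
      have h1 : ℓ ≤ Real.log X / 2 := by
        have h2 := Real.log_le_sub_one_of_pos (show 0 < Real.log X / 2 by positivity)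
        rw [Real.log_div hlX0.ne' (by norm_num)] at h2
        have h3 := Real.log_two_lt_d9
        show Real.log (Real.log X) ≤ Real.log X / 2
        linarith
      have h2 : Real.log X ≤ X ^ ((2 : ℝ) / 3) / (2 / 3) :=
        Real.log_le_rpow_div hX0.le (by norm_num)
      have h3 : Ψ ≤ X ^ ((2 : ℝ) / 3) := by
        have h4 : 0 < X ^ ((2 : ℝ) / 3) := by positivity
        have h5 : X ^ ((2 : ℝ) / 3) / (2 / 3) = 3 / 2 * X ^ ((2 : ℝ) / 3) := by ring
        rw [h5] at h2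
        linarith
      calc (N : ℝ) ≤ Ψ * X ^ ((1 : ℝ) / 3) := hNle
        _ ≤ X ^ ((2 : ℝ) / 3) * X ^ ((1 : ℝ) / 3) := by gcongr
        _ = X := by
            rw [← Real.rpow_add hX0]
            norm_num
    have hlog6 : Real.log 6 ≤ 2 := by
      have h1 : Real.log 6 ≤ Real.log (Real.exp 2) := by
        apply Real.log_le_log (by norm_num)
        have h2 := Real.exp_one_gt_d9
        have h3 : Real.exp 2 = Real.exp 1 * Real.exp 1 := by
          rw [← Real.exp_add]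
          norm_num
        rw [h3]
        nlinarith
      rwa [Real.log_exp] at h1
    -- `log log y` for `y` between `X ^ (1/6)` and `X`
    have hll : ∀ y : ℝ, X ^ ((1 : ℝ) / 6) ≤ y → y ≤ X →
        ℓ - 2 ≤ Real.log (Real.log y) ∧ Real.log (Real.log y) ≤ ℓ := by
      intro y hy1 hy2
      have h1 : Real.log X / 6 ≤ Real.log y := by
        have := Real.log_le_log (by positivity) hy1
        rw [Real.log_rpow hX0] at this
        linarith
      have h2 : Real.log y ≤ Real.log X := Real.log_le_log (by linarith) hy2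
      have h3 := Real.log_le_log (by positivity) h1
      rw [Real.log_div hlX0.ne' (by norm_num)] at h3
      have h4 : Real.log (Real.log y) ≤ Real.log (Real.log X) :=
        Real.log_le_log (by linarith [show 0 < Real.log X / 6 by positivity]) h2
      exact ⟨by show Real.log (Real.log X) - 2 ≤ _; linarith, h4⟩
    obtain ⟨hl2a, hl2b⟩ := hll N hNge hNX
    -- the covering
    set D : Set (ℕ × ℕ) := {t | t ∈ E X ∧ t ∉ A X ∧ t ∉ triples (X ^ (1 / 2 : ℝ))} with hD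
    have hcov : E X ⊆ A X ∪ triples (X ^ (1 / 2 : ℝ)) ∪ D := by
      intro t ht
      by_cases h1 : t ∈ A X
      · exact Or.inl (Or.inl h1)
      by_cases h2 : t ∈ triples (X ^ (1 / 2 : ℝ))
      · exact Or.inl (Or.inr h2)
      · exact Or.inr ⟨ht, h1, h2⟩
    have hDab : ∀ t ∈ D, 0 < t.1 ∧ 0 < t.2 ∧ t.1 + t.2 ≤ N ∧
        (t.1 ∈ Ab (δ / 4) N ∨ t.2 ∈ Ab (δ / 4) N ∨ t.1 + t.2 ∈ Ab (δ / 4) N) := by
      rintro t ⟨⟨htT, htE⟩, htA, htB⟩
      have ht1 : 0 < t.1 := htT.1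
      have ht2 : 0 < t.2 := lt_of_lt_of_le htT.1 htT.2.1
      have hcop : Nat.Coprime t.1 t.2 := htT.2.2.1
      set n : ℕ := t.1 * t.2 * (t.1 + t.2) with hn
      set r : ℝ := (gam n : ℝ) with hr
      have hrX : r ≤ X := htT.2.2.2
      have hr0 : 0 < r := by
        rw [hr]
        exact_mod_cast gam_pos n
      have hrX2 : X ^ (1 / 2 : ℝ) < r := by
        by_contra hcon
        exact htB ⟨htT.1, htT.2.1, hcop, not_lt.1 hcon⟩
      have hr6 : X ^ ((1 : ℝ) / 6) ≤ r :=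
        (Real.rpow_le_rpow_of_exponent_le hXge1 (by norm_num)).trans hrX2.le
      obtain ⟨hl1a, hl1b⟩ := hll r hr6 hrX
      set l1 : ℝ := Real.log (Real.log r) with hl1
      set c : ℝ := ((t.1 + t.2 : ℕ) : ℝ) with hc
      have hcψ : c ≤ ψ (gam n) * r ^ ((1 : ℝ) / 3) := by
        by_contra hcon
        exact htA ⟨htT, not_le.1 hcon⟩
      have hψr : ψ (gam n) = l1 ^ (1 / 4 : ℝ) := rfl
      have hψΨ : ψ (gam n) ≤ Ψ := by
        rw [hψr]
        exact Real.rpow_le_rpow (by linarith) hl1b (by norm_num)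
      have hcN' : c ≤ Ψ * X ^ ((1 : ℝ) / 3) := by
        refine hcψ.trans ?_
        have h1 : r ^ ((1 : ℝ) / 3) ≤ X ^ ((1 : ℝ) / 3) :=
          Real.rpow_le_rpow hr0.le hrX (by norm_num)
        exact mul_le_mul hψΨ h1 (by positivity) (by linarith)
      have hcN : t.1 + t.2 ≤ N := Nat.le_floor hcN'
      refine ⟨ht1, ht2, hcN, ?_⟩
      by_contra hcon
      push Not at hcon
      obtain ⟨hn1, hn2, hn3⟩ := hcon
      -- the members are normal
      have hno : ∀ m : ℕ, 1 ≤ m → m ≤ N → m ∉ Ab (δ / 4) N →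
          |(m.primeFactors.card : ℝ) - Real.log (Real.log N)| ≤
            δ / 4 * Real.log (Real.log N) := by
        intro m hm1 hm2 hm3
        by_contra h
        exact hm3 (mem_filter.2 ⟨mem_Icc.2 ⟨hm1, hm2⟩, not_le.1 h⟩)
      have hw1 := hno t.1 (by omega) (by omega) hn1
      have hw2 := hno t.2 (by omega) (by omega) hn2
      have hw3 := hno (t.1 + t.2) (by omega) (by omega) hn3
      have hcard : (n.primeFactors.card : ℝ) = t.1.primeFactors.card + t.2.primeFactors.card +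
          (t.1 + t.2).primeFactors.card := by
        have hc' : Nat.Coprime (t.1 * t.2) (t.1 + t.2) := by
          apply Nat.Coprime.mul_left
          · rw [Nat.coprime_self_add_right]
            exact hcop
          · rw [Nat.coprime_add_self_right]
            exact hcop.symm
        rw [hn, hc'.primeFactors_mul, Finset.card_union_of_disjoint hc'.disjoint_primeFactors,
          hcop.primeFactors_mul, Finset.card_union_of_disjoint hcop.disjoint_primeFactors]
        push_cast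
        ring
      have hc3 : r ≤ c ^ 3 := by
        have h1 : gam n ≤ n := by
          apply Nat.le_of_dvd
          · rw [hn]
            positivity
          · exact Nat.prod_primeFactors_dvd n
        have h2 : n ≤ (t.1 + t.2) ^ 3 := by
          rw [hn]
          calc t.1 * t.2 * (t.1 + t.2) ≤ (t.1 + t.2) * (t.1 + t.2) * (t.1 + t.2) := by
                gcongr <;> omega
            _ = _ := by ring
        rw [hr, hc]
        exact_mod_cast h1.trans h2
      have hc0 : 0 < c := by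
        rw [hc]
        exact_mod_cast Nat.add_pos_left ht1 _
      have hcr : r ^ ((1 : ℝ) / 3) ≤ c := by
        calc r ^ ((1 : ℝ) / 3) ≤ (c ^ 3) ^ ((1 : ℝ) / 3) :=
              Real.rpow_le_rpow hr0.le hc3 (by norm_num)
          _ = c := by
              rw [← Real.rpow_natCast, ← Real.rpow_mul hc0.le]
              norm_num
      have hc6 : X ^ ((1 : ℝ) / 6) ≤ c := by
        refine le_trans ?_ hcr
        calc X ^ ((1 : ℝ) / 6) = (X ^ (1 / 2 : ℝ)) ^ ((1 : ℝ) / 3) := by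
              rw [← Real.rpow_mul hX0.le]
              norm_num
          _ ≤ _ := Real.rpow_le_rpow (by positivity) hrX2.le (by norm_num)
      have hcX : c ≤ X := by
        have : c ≤ (N : ℝ) := by
          rw [hc]
          exact_mod_cast hcN
        exact this.trans hNX
      obtain ⟨hl3a, hl3b⟩ := hll c hc6 hcX
      have hlr0 : 0 < Real.log r := by
        apply Real.log_pos
        linarith
      set e : ℝ := Real.log c - 1 / 3 * Real.log r with he
      have he0 : 0 ≤ e := by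
        have := Real.log_le_log (by positivity) hcr
        rw [Real.log_rpow hr0] at this
        rw [he]
        linarith
      have hl1p : 0 < l1 := by linarith
      have he1 : e ≤ ℓ := by
        have h1 := Real.log_le_log hc0 hcψ
        rw [hψr, Real.log_mul (by positivity) (by positivity), Real.log_rpow hr0,
          Real.log_rpow hl1p] at h1
        have h2 := Real.log_le_sub_one_of_pos hl1p
        rw [he]
        linarith
      have hexc : excess t = e + 1 / 3 * ((n.primeFactors.card : ℝ) * l1) := by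
        have hH : H n = r / Real.log r ^ n.primeFactors.card := rfl
        unfold excess
        rw [← hn, hH, Real.log_div hr0.ne' (by positivity), Real.log_pow, he, hc]
        ring
      have hwb : |(n.primeFactors.card : ℝ) - 3 * Real.log (Real.log N)| ≤
          3 * (δ / 4) * Real.log (Real.log N) := by
        rw [hcard]
        rw [abs_le] at hw1 hw2 hw3 ⊢
        constructor <;> linarith [hw1.1, hw1.2, hw2.1, hw2.2, hw3.1, hw3.2]
      have hfinal := hpt ℓ l1 (Real.log (Real.log N)) (Real.log (Real.log c))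
        n.primeFactors.card e hX1 hl1a hl1b hl2a hl2b hl3a hl3b hwb he0 he1
      rw [← hexc] at hfinal
      exact absurd htE (not_lt.2 hfinal)
    have hDcard := card_abn (δ / 4) N D hDab
    have hab := hC N (δ / 4) hN16 (by positivity)
    have hNlog : 0 < Real.log (Real.log N) := by linarith
    have hD2 : (D.ncard : ℝ) ≤ 96 * C / δ ^ 2 * ℓ ^ (-(1 / 2) : ℝ) * X ^ ((2 : ℝ) / 3) := by
      have h1 : ((Ab (δ / 4) N).card : ℝ) ≤ C * N / ((δ / 4) ^ 2 * Real.log (Real.log N)) := hab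
      have h2 : C * N / ((δ / 4) ^ 2 * Real.log (Real.log N)) ≤
          C * N / ((δ / 4) ^ 2 * (ℓ / 2)) := by
        have : ℓ / 2 ≤ Real.log (Real.log N) := by linarith
        gcongr
      have hℓ0 : 0 < ℓ := by linarith
      have h3 : (N : ℝ) ^ 2 ≤ Ψ ^ 2 * X ^ ((2 : ℝ) / 3) := by
        calc (N : ℝ) ^ 2 ≤ (Ψ * X ^ ((1 : ℝ) / 3)) ^ 2 :=
              pow_le_pow_left₀ (Nat.cast_nonneg _) hNle 2
          _ = _ := by
              rw [mul_pow, ← Real.rpow_natCast (X ^ ((1 : ℝ) / 3)), ← Real.rpow_mul hX0.le]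
              norm_num
      have h4 : Ψ ^ 2 = ℓ * ℓ ^ (-(1 / 2) : ℝ) := by
        rw [hΨ, ← Real.rpow_natCast, ← Real.rpow_mul hℓ0.le]
        nth_rewrite 2 [← Real.rpow_one ℓ]
        rw [← Real.rpow_add hℓ0]
        norm_num
      calc (D.ncard : ℝ) ≤ 3 * (N * (Ab (δ / 4) N).card) := hDcard
        _ ≤ 3 * (N * (C * N / ((δ / 4) ^ 2 * (ℓ / 2)))) := by
            have := h1.trans h2
            gcongr
        _ = 96 * C / (δ ^ 2 * ℓ) * (N : ℝ) ^ 2 := by
            field_simp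
            ring
        _ ≤ 96 * C / (δ ^ 2 * ℓ) * (Ψ ^ 2 * X ^ ((2 : ℝ) / 3)) := by gcongr
        _ = 96 * C / δ ^ 2 * ℓ ^ (-(1 / 2) : ℝ) * X ^ ((2 : ℝ) / 3) := by
            rw [h4]
            field_simp
    have hAfin : (A X).Finite := (hfin X).subset fun t ht => ht.1
    have hDfin : D.Finite := (hfin X).subset fun t ht => ht.1.1
    have hsum : ((E X).ncard : ℝ) ≤ ((A X).ncard : ℝ) +
        ((triples (X ^ (1 / 2 : ℝ))).ncard : ℝ) + (D.ncard : ℝ) := by
      have h4 := Set.ncard_le_ncard hcov ((hAfin.union (hfin _)).union hDfin)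
      have h5 := Set.ncard_union_le (A X ∪ triples (X ^ (1 / 2 : ℝ))) D
      have h6 := Set.ncard_union_le (A X) (triples (X ^ (1 / 2 : ℝ)))
      exact_mod_cast h4.trans (h5.trans (Nat.add_le_add_right h6 _))
    have hXp : 0 < X ^ ((2 : ℝ) / 3) := by positivity
    have hXh : (X ^ (1 / 2 : ℝ)) ^ ((2 : ℝ) / 3) = X ^ ((2 : ℝ) / 3) * X ^ (-(1 / 3) : ℝ) := by
      rw [← Real.rpow_mul hX0.le, ← Real.rpow_add hX0]
      norm_num
    have hX3p : 0 < X ^ (-(1 / 3) : ℝ) := by positivity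
    rw [hXh, div_le_iff₀ hXp]
    calc ((E X).ncard : ℝ) ≤ ((A X).ncard : ℝ) +
        ((triples (X ^ (1 / 2 : ℝ))).ncard : ℝ) + (D.ncard : ℝ) := hsum
      _ ≤ ((A X).ncard : ℝ) + ((triples (X ^ (1 / 2 : ℝ))).ncard : ℝ) +
          96 * C / δ ^ 2 * ℓ ^ (-(1 / 2) : ℝ) * X ^ ((2 : ℝ) / 3) := by linarith
      _ = _ := by
          field_simp
  -- conclusion
  have hlim : Tendsto (fun X : ℝ => ((A X).ncard : ℝ) / X ^ ((2 : ℝ) / 3) +
      ((triples (X ^ (1 / 2 : ℝ))).ncard : ℝ) / (X ^ (1 / 2 : ℝ)) ^ ((2 : ℝ) / 3) *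
        X ^ (-(1 / 3) : ℝ) + 96 * C / δ ^ 2 * (G X) ^ (-(1 / 2) : ℝ)) atTop (𝓝 0) := by
    have h1 : Tendsto (fun X : ℝ => ((triples (X ^ (1 / 2 : ℝ))).ncard : ℝ) /
        (X ^ (1 / 2 : ℝ)) ^ ((2 : ℝ) / 3)) atTop (𝓝 κ) :=
      hcount.comp (tendsto_rpow_atTop (by norm_num))
    have h2 : Tendsto (fun X : ℝ => X ^ (-(1 / 3) : ℝ)) atTop (𝓝 0) :=
      tendsto_rpow_neg_atTop (by norm_num)
    have h3 : Tendsto (fun X : ℝ => (G X) ^ (-(1 / 2) : ℝ)) atTop (𝓝 0) :=
      (tendsto_rpow_neg_atTop (by norm_num)).comp hGt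
    have h4 := (hA'.add (h1.mul h2)).add (h3.const_mul (96 * C / δ ^ 2))
    simpa using h4
  have hE0 : Tendsto (fun X : ℝ => ((E X).ncard : ℝ) / X ^ ((2 : ℝ) / 3)) atTop (𝓝 0) := by
    refine tendsto_of_tendsto_of_tendsto_of_le_of_le' tendsto_const_nhds hlim ?_ hmain
    filter_upwards [eventually_gt_atTop 0] with X hX
    positivity
  have hfin2 := hE0.div hcount hκ.ne'
  rw [zero_div] at hfin2
  refine hfin2.congr' ?_
  filter_upwards [eventually_gt_atTop 0] with X hX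
  have hXp : X ^ ((2 : ℝ) / 3) ≠ 0 := by positivity
  show ((E X).ncard : ℝ) / X ^ ((2 : ℝ) / 3) / (((triples X).ncard : ℝ) / X ^ ((2 : ℝ) / 3)) =
    ((E X).ncard : ℝ) / ((triples X).ncard : ℝ)
  rw [div_div_div_cancel_right₀ hXp]

end Pool.Agent.Results.MP_14cf73_nt.TypicalSize
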